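import Pool.Agent.Y150.KS.Defs

/-!
KS-3 (project KS of helper150; by helper38): growth of sequences.
-/

set_option autoImplicit false

open Filter Topology

namespace Pool.Agent.Y38.KS.Gro

lemma tnd_const {c l : ℝ} (hc : 0 < c) (hl : 0 < l) :
    Tendsto (fun n : ℕ => (c * l ^ n) ^ ((1 : ℝ) / n)) atTop (𝓝 l) := by
  have h1 : Tendsto (fun n : ℕ => c ^ ((1 : ℝ) / n)) atTop (𝓝 1) := by
    have h := (tendsto_const_nhds (x := c) (f := (atTop : Filter ℕ))).rpow
      tendsto_one_div_atTop_nhds_zero_nat (Or.inl hc.ne')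
    rwa [Real.rpow_zero] at h
  have h2 := h1.mul_const l
  rw [one_mul] at h2
  refine h2.congr' ?_
  filter_upwards [eventually_ge_atTop 1] with n hn
  rw [Real.mul_rpow hc.le (pow_nonneg hl.le n), one_div, Real.pow_rpow_inv_natCast hl.le (by omega)]

lemma squ {u : ℕ → ℝ} {l c C : ℝ} (hl : 0 < l) (hc : 0 < c) (hC : 0 < C)
    (h1 : ∀ᶠ n : ℕ in atTop, c * l ^ n ≤ u n) (h2 : ∀ᶠ n : ℕ in atTop, u n ≤ C * l ^ n) :
    Tendsto (fun n : ℕ => u n ^ ((1 : ℝ) / n)) atTop (𝓝 l) := by
  refine tendsto_of_tendsto_of_tendsto_of_le_of_le' (tnd_const hc hl) (tnd_const hC hl) ?_ ?_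
  · filter_upwards [h1] with n hn
    exact Real.rpow_le_rpow (by positivity) hn (by positivity)
  · filter_upwards [h1, h2] with n hn hn'
    have h3 : 0 ≤ u n := le_trans (by positivity) hn
    exact Real.rpow_le_rpow h3 hn' (by positivity)

theorem gro : Pool.Agent.Y150.KS.S_gro := by
  constructor
  · intro u l c C hl hc h1 h2
    have hl0 : 0 < l := by linarith
    have hC : 0 < C := by
      have e1 := h1 0
      have e2 := h2 0
      rw [pow_zero, mul_one] at e1 e2
      linarith
    have hup : ∀ᶠ n : ℕ in atTop, max (u n) 1 ≤ (2 * C + 1) * l ^ n := by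
      refine Eventually.of_forall fun n => ?_
      have h3 : 1 ≤ l ^ n := one_le_pow₀ hl
      have h4 := h2 n
      refine max_le ?_ ?_
      · nlinarith
      · nlinarith
    rcases eq_or_lt_of_le hl with he | hlt
    · refine squ hl0 one_pos (by positivity) ?_ hup
      refine Eventually.of_forall fun n => ?_
      rw [← he, one_pow, one_mul]
      exact le_max_right _ _
    · refine squ (c := c / 2) hl0 (by positivity) (by positivity) ?_ hup
      filter_upwards [(tendsto_pow_atTop_atTop_of_one_lt hlt).eventually_ge_atTop (2 * C / c)]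
        with n hn
      rw [div_le_iff₀ hc] at hn
      refine le_trans ?_ (le_max_left _ _)
      have := h1 n
      linarith
  · intro u l c C hl hc h1 h2
    have hC : 0 < C := by
      have e1 := h1 0
      have e2 := h2 0
      rw [pow_zero, mul_one] at e1 e2
      linarith
    exact squ hl hc hC (Eventually.of_forall h1) (Eventually.of_forall h2)

end Pool.Agent.Y38.KS.Gro
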